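import Pool.Agent.Results.MP_4101c8_co.SumBoundFails

/-!
# The Nordhaus–Gaddum conjecture for total domination with `δ* = 4` (product)
-/

set_option autoImplicit false

namespace Pool.Agent.Results.MP_4101c8_co.ProductBoundFails

open Pool.Agent.Results.MP_4101c8_co.SumBoundFails

/-- **Q2 has a negative answer.**  For every `n₀` there is a connected graph `G` of order
`n ≥ n₀` with `δ*(G) = 4` whose total domination numbers satisfy
`γ_t(G) γ_t(Ḡ) = 6 n / 7 > 4 n / 5`. -/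
theorem result : ∀ n₀ : ℕ, ∃ (V : Type) (_ : Finite V) (G : SimpleGraph V) (n d d' t t' : ℕ),
    Nat.card V = n ∧ n₀ ≤ n ∧ G.Connected ∧
    HasMinDegree G d ∧ HasMinDegree Gᶜ d' ∧ min d d' = 4 ∧
    HasTotalDominationNumber G t ∧ HasTotalDominationNumber Gᶜ t' ∧
    ((t : ℚ) * t' = 6 * n / 7) ∧ (4 * n / 5 : ℚ) < t * t' := by
  intro n₀
  have hne : Nonempty (Vert (n₀ + 2)) := ⟨(⟨0, by omega⟩, true, 0)⟩
  obtain ⟨x0⟩ := hne
  refine ⟨Vert (n₀ + 2), inferInstance, (H (n₀ + 2))ᶜ, 14 * (n₀ + 2), 14 * (n₀ + 2) - 5, 4, 2,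
    6 * (n₀ + 2), ?_, by omega, conn _ (by omega), ⟨⟨x0, nbr_Hc x0⟩, ?_⟩, ?_, ?_,
    gamma_Hc _ (by omega), ?_, ?_, ?_⟩
  · rw [Nat.card_eq_fintype_card]
    simp [Vert]
    ring
  · rintro _ ⟨x, rfl⟩
    exact (nbr_Hc x).ge
  · rw [compl_compl]
    refine ⟨⟨x0, nbr_H x0⟩, ?_⟩
    rintro _ ⟨x, rfl⟩
    exact (nbr_H x).ge
  · omega
  · rw [compl_compl]
    exact gamma_H _
  · push_cast
    ring
  · push_cast
    have : (0 : ℚ) ≤ n₀ := Nat.cast_nonneg _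
    linarith

end Pool.Agent.Results.MP_4101c8_co.ProductBoundFails
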