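import Mathlib

/-!
# The Nordhaus–Gaddum conjecture for total domination with `δ* = 4` (sum)

The graph is the complement of the disjoint union of `m ≥ 2` copies of the bipartite complement of
the Heawood graph.  It is connected, its complement is `4`-regular, and the total domination
numbers of the graph and of its complement are `2` and `6 m = 3 n / 7`.
-/

set_option autoImplicit false

open Finset

namespace Pool.Agent.Results.MP_4101c8_co.SumBoundFails

/-- `S` is a total dominating set of `G`: every vertex of `G` is adjacent to some vertex of `S`. -/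
def IsTotalDominatingSet {V : Type} (G : SimpleGraph V) (S : Finset V) : Prop :=
  ∀ v : V, ∃ u ∈ S, G.Adj v u

/-- `t` is the total domination number of `G`: the minimum cardinality of a total dominating set. -/
def HasTotalDominationNumber {V : Type} (G : SimpleGraph V) (t : ℕ) : Prop :=
  IsLeast {k : ℕ | ∃ S : Finset V, IsTotalDominatingSet G S ∧ S.card = k} t

/-- `d` is the minimum degree of `G`. -/
def HasMinDegree {V : Type} (G : SimpleGraph V) (d : ℕ) : Prop :=
  IsLeast (Set.range fun v : V => (G.neighborSet v).ncard) d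

/-- The differences `point - line` for which the point is not on the line (Fano plane given by the
difference set `{0, 1, 3}` modulo `7`). -/
def D : Finset (ZMod 7) := {2, 4, 5, 6}

/-- Vertices: the copy, the side (`true` = points, `false` = lines), the name. -/
abbrev Vert (m : ℕ) : Type := Fin m × Bool × ZMod 7

/-- adjacency inside one copy -/
def adj0 (a b : Bool × ZMod 7) : Prop :=
  (a.1 = true ∧ b.1 = false ∧ a.2 - b.2 ∈ D) ∨ (a.1 = false ∧ b.1 = true ∧ b.2 - a.2 ∈ D)

instance : DecidableRel adj0 := fun a b => by unfold adj0; infer_instance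

theorem adj0_symm (a b : Bool × ZMod 7) (h : adj0 a b) : adj0 b a := by
  rcases h with ⟨h1, h2, h3⟩ | ⟨h1, h2, h3⟩
  · exact Or.inr ⟨h2, h1, h3⟩
  · exact Or.inl ⟨h2, h1, h3⟩

theorem adj0_irrefl (a : Bool × ZMod 7) : ¬ adj0 a a := by
  rintro (⟨h1, h2, -⟩ | ⟨h1, h2, -⟩) <;> simp_all

/-- `m` disjoint copies of the bipartite complement of the Heawood graph -/
def H (m : ℕ) : SimpleGraph (Vert m) where
  Adj x y := x.1 = y.1 ∧ adj0 x.2 y.2
  symm := ⟨fun _ _ h => ⟨h.1.symm, adj0_symm _ _ h.2⟩⟩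
  loopless := ⟨fun _ h => adj0_irrefl _ h.2⟩

theorem card_nbr (a : Bool × ZMod 7) : (univ.filter fun b => adj0 a b).card = 4 := by
  revert a; decide

theorem nbr_H {m : ℕ} (x : Vert m) : ((H m).neighborSet x).ncard = 4 := by
  have h1 : (H m).neighborSet x = ((univ.filter fun b => adj0 x.2 b).image (fun b => (x.1, b)) :
      Finset (Vert m)) := by
    ext y
    simp only [SimpleGraph.mem_neighborSet, H, coe_image, Set.mem_image, mem_coe, mem_filter,
      mem_univ, true_and]
    constructor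
    · rintro ⟨h1, h2⟩
      exact ⟨y.2, h2, by rw [h1]⟩
    · rintro ⟨b, hb, rfl⟩
      exact ⟨rfl, hb⟩
  rw [h1, Set.ncard_coe_finset, card_image_of_injective, card_nbr]
  intro a b hab
  simpa using hab

theorem nbr_Hc {m : ℕ} (x : Vert m) : ((H m)ᶜ.neighborSet x).ncard = 14 * m - 5 := by
  classical
  have h1 : (H m)ᶜ.neighborSet x = (insert x ((H m).neighborSet x))ᶜ := by
    ext y
    simp only [SimpleGraph.mem_neighborSet, SimpleGraph.compl_adj, Set.mem_compl_iff,
      Set.mem_insert_iff, not_or]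
    constructor
    · rintro ⟨h1, h2⟩
      exact ⟨fun h => h1 h.symm, h2⟩
    · rintro ⟨h1, h2⟩
      exact ⟨fun h => h1 h.symm, h2⟩
  have h2 : (insert x ((H m).neighborSet x)).ncard = 5 := by
    rw [Set.ncard_insert_of_notMem (by simp), nbr_H]
  have h3 := Set.ncard_add_ncard_compl (insert x ((H m).neighborSet x))
  rw [h1]
  have h4 : Nat.card (Vert m) = 14 * m := by
    rw [Nat.card_eq_fintype_card]
    simp [Vert]
    ring
  omega

/-- three points (lines) are needed to hit the complements of all lines (points) -/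
theorem three_pts : ∀ T : Finset (ZMod 7), (∀ j : ZMod 7, ∃ i ∈ T, i - j ∈ D) → 3 ≤ T.card := by
  decide +kernel

theorem three_lines : ∀ T : Finset (ZMod 7), (∀ i : ZMod 7, ∃ j ∈ T, i - j ∈ D) → 3 ≤ T.card := by
  decide +kernel

theorem gamma_H (m : ℕ) : HasTotalDominationNumber (H m) (6 * m) := by
  classical
  constructor
  · refine ⟨univ ×ˢ (univ ×ˢ {0, 1, 2}), ?_, ?_⟩
    · rintro ⟨c, s, a⟩
      have h1 : ∀ (s : Bool) (a : ZMod 7), ∃ b : ZMod 7, b ∈ ({0, 1, 2} : Finset (ZMod 7)) ∧
          adj0 (s, a) (!s, b) := by decide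
      obtain ⟨b, hb, hab⟩ := h1 s a
      exact ⟨(c, !s, b), by simpa using hb, rfl, hab⟩
    · rw [card_product, card_product]
      have : ({0, 1, 2} : Finset (ZMod 7)).card = 3 := by decide
      rw [this]
      simp
      ring
  · rintro k ⟨S, hS, rfl⟩
    have key : ∀ p : Fin m × Bool, 3 ≤ (S.filter fun x => (x.1, x.2.1) = p).card := by
      rintro ⟨c, s⟩
      have h1 : ((S.filter fun x => (x.1, x.2.1) = (c, s)).image fun x => x.2.2).card ≤
          (S.filter fun x => (x.1, x.2.1) = (c, s)).card := card_image_le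
      refine le_trans ?_ h1
      cases s with
      | true =>
        apply three_pts
        intro j
        obtain ⟨u, hu, h2, h3⟩ := hS (c, false, j)
        simp only [adj0] at h3
        refine ⟨u.2.2, mem_image.2 ⟨u, mem_filter.2 ⟨hu, ?_⟩, rfl⟩, ?_⟩
        · rcases h3 with ⟨h4, -⟩ | ⟨-, h4, -⟩
          · simp at h4
          · exact Prod.ext h2.symm h4
        · rcases h3 with ⟨h4, -⟩ | ⟨-, -, h4⟩
          · simp at h4
          · exact h4
      | false =>
        apply three_lines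
        intro j
        obtain ⟨u, hu, h2, h3⟩ := hS (c, true, j)
        simp only [adj0] at h3
        refine ⟨u.2.2, mem_image.2 ⟨u, mem_filter.2 ⟨hu, ?_⟩, rfl⟩, ?_⟩
        · rcases h3 with ⟨-, h4, -⟩ | ⟨h4, -⟩
          · exact Prod.ext h2.symm h4
          · simp at h4
        · rcases h3 with ⟨-, -, h4⟩ | ⟨h4, -⟩
          · exact h4
          · simp at h4
    have h2 : S.card = ∑ p : Fin m × Bool, (S.filter fun x => (x.1, x.2.1) = p).card :=
      card_eq_sum_card_fiberwise fun x _ => mem_univ _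
    rw [h2]
    calc 6 * m = ∑ _p : Fin m × Bool, 3 := by simp; ring
      _ ≤ _ := sum_le_sum fun p _ => key p

theorem gamma_Hc (m : ℕ) (hm : 2 ≤ m) : HasTotalDominationNumber (H m)ᶜ 2 := by
  classical
  set u : Vert m := (⟨0, by omega⟩, true, 0) with hu
  set v : Vert m := (⟨1, by omega⟩, true, 0) with hv
  have huv : u ≠ v := by
    rw [hu, hv]
    intro h
    have := congrArg (fun x : Vert m => x.1.1) h
    simp at this
  constructor
  · refine ⟨{u, v}, ?_, card_pair huv⟩
    intro w
    by_cases h : w.1 = u.1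
    · refine ⟨v, by simp, ?_⟩
      have h1 : w.1 ≠ v.1 := by
        rw [h, hu, hv]
        intro h2
        have := congrArg Fin.val h2
        simp at this
      rw [SimpleGraph.compl_adj]
      exact ⟨fun h2 => h1 (by rw [h2]), fun h2 => h1 h2.1⟩
    · refine ⟨u, by simp, ?_⟩
      rw [SimpleGraph.compl_adj]
      exact ⟨fun h2 => h (by rw [h2]), fun h2 => h h2.1⟩
  · rintro k ⟨S, hS, rfl⟩
    obtain ⟨a, ha, -⟩ := hS u
    obtain ⟨b, hb, hab⟩ := hS a
    have : 1 < S.card := one_lt_card.2 ⟨a, ha, b, hb, hab.ne⟩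
    omega

theorem conn (m : ℕ) (hm : 2 ≤ m) : (H m)ᶜ.Connected := by
  have hadj : ∀ x y : Vert m, x.1 ≠ y.1 → (H m)ᶜ.Adj x y := by
    intro x y h
    rw [SimpleGraph.compl_adj]
    exact ⟨fun h2 => h (by rw [h2]), fun h2 => h h2.1⟩
  have : Nonempty (Vert m) := ⟨(⟨0, by omega⟩, true, 0)⟩
  refine ⟨fun x y => ?_⟩
  by_cases h : x.1 = y.1
  · obtain ⟨c, hc⟩ : ∃ c : Fin m, c ≠ x.1 := by
      have : Nontrivial (Fin m) := Fin.nontrivial_iff_two_le.2 hm
      exact exists_ne _
    have h1 := hadj x (c, true, 0) (fun h => hc h.symm)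
    have h2 := hadj (c, true, 0) y (fun h' => hc (h'.trans h.symm))
    exact h1.reachable.trans h2.reachable
  · exact (hadj x y h).reachable

/-- **Q1 has a negative answer.**  For every `n₀` there is a connected graph `G` of order
`n ≥ n₀` with `δ*(G) = 4` whose total domination numbers satisfy
`γ_t(G) + γ_t(Ḡ) = 3 n / 7 + 2 > 2 n / 5 + 2`. -/
theorem result : ∀ n₀ : ℕ, ∃ (V : Type) (_ : Finite V) (G : SimpleGraph V) (n d d' t t' : ℕ),
    Nat.card V = n ∧ n₀ ≤ n ∧ G.Connected ∧
    HasMinDegree G d ∧ HasMinDegree Gᶜ d' ∧ min d d' = 4 ∧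
    HasTotalDominationNumber G t ∧ HasTotalDominationNumber Gᶜ t' ∧
    ((t : ℚ) + t' = 3 * n / 7 + 2) ∧ (2 * n / 5 + 2 : ℚ) < t + t' := by
  intro n₀
  have hne : Nonempty (Vert (n₀ + 2)) := ⟨(⟨0, by omega⟩, true, 0)⟩
  obtain ⟨x0⟩ := hne
  refine ⟨Vert (n₀ + 2), inferInstance, (H (n₀ + 2))ᶜ, 14 * (n₀ + 2), 14 * (n₀ + 2) - 5, 4, 2,
    6 * (n₀ + 2), ?_, by omega, conn _ (by omega), ⟨⟨x0, nbr_Hc x0⟩, ?_⟩, ?_, ?_,
    gamma_Hc _ (by omega), ?_, ?_, ?_⟩
  · rw [Nat.card_eq_fintype_card]
    simp [Vert]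
    ring
  · rintro _ ⟨x, rfl⟩
    exact (nbr_Hc x).ge
  · rw [compl_compl]
    refine ⟨⟨x0, nbr_H x0⟩, ?_⟩
    rintro _ ⟨x, rfl⟩
    exact (nbr_H x).ge
  · omega
  · rw [compl_compl]
    exact gamma_H _
  · push_cast
    ring
  · push_cast
    have : (0 : ℚ) ≤ n₀ := Nat.cast_nonneg _
    linarith

end Pool.Agent.Results.MP_4101c8_co.SumBoundFails
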